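import Pool.Agent.Helper73.SY.Base

/-!
# From sign changes to a body of revolution (module CMB of MP_a2630c_SY)
-/

open MeasureTheory Set Metric Real Filter Topology
open scoped RealInnerProductSpace ENNReal
open Pool.Agent.Helper16.Buoy (E cap IsEllipsoid Homothetic buoyancyBody)
open Pool.Agent.Helper73.HV (supp)
open Pool.Agent.Helper73.LR (CB vol GG Sol aff)
open Pool.Agent.Helper35.HV (integral_image abs_det_pos integrable_K)
open Pool.Agent.Helper73.SY

namespace Pool.Agent.Helper61.SY

variable {n : ℕ}

theorem bb_inner (i : Fin n) (x : E n) : inner ℝ (bb n i) x = x i := by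
  unfold bb
  simp [EuclideanSpace.inner_single_left]

theorem bb_apply (i k : Fin n) : bb n i k = if k = i then 1 else 0 := by
  unfold bb
  simp

theorem bb_norm (i : Fin n) : ‖bb n i‖ = 1 := by
  unfold bb
  simp

theorem bb_on {i j : Fin n} (h : i ≠ j) : ON (bb n i) (bb n j) where
  p1 := bb_norm i
  q1 := bb_norm j
  pq := by rw [bb_inner, bb_apply, if_neg h]

theorem iot_bb (i j : Fin n) (x : E n) (k : Fin n) :
    iot (bb n i) (bb n j) x k = x k - 2 * x i * (if k = i then 1 else 0) -
      2 * x j * (if k = j then 1 else 0) := by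
  unfold iot
  simp only [PiLp.sub_apply, PiLp.smul_apply, smul_eq_mul, bb_inner, bb_apply]

/-- Second moments of a convex body are positive. -/
theorem mom_pos {K : Set (E n)} (hK : CB K) {u : E n} (hu : u ≠ 0) :
    0 < ∫ x in K, (inner ℝ u x) ^ 2 := by
  have hc : Continuous (fun x : E n => (inner ℝ u x) ^ 2) := by fun_prop
  rw [setIntegral_pos_iff_support_of_nonneg_ae]
  · have hopen : IsOpen (Function.support (fun x : E n => (inner ℝ u x) ^ 2) ∩ interior K) :=
      hc.isOpen_support.inter isOpen_interior
    have hne : (Function.support (fun x : E n => (inner ℝ u x) ^ 2) ∩ interior K).Nonempty := by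
      obtain ⟨x, hx⟩ := hK.int
      by_cases h0 : inner ℝ u x = 0
      · have hcont : Filter.Tendsto (fun t : ℝ => x + t • u) (nhds 0) (nhds x) := by
          have : Continuous (fun t : ℝ => x + t • u) := by fun_prop
          have h1 := this.tendsto 0
          simpa using h1
        have h2 : ∀ᶠ t : ℝ in nhds 0, x + t • u ∈ interior K :=
          hcont (isOpen_interior.mem_nhds hx)
        obtain ⟨ε, hε, hball⟩ := Metric.eventually_nhds_iff_ball.1 h2
        refine ⟨x + (ε / 2) • u, ?_, hball (ε / 2) (by
          rw [Metric.mem_ball, dist_zero_right, Real.norm_of_nonneg (by positivity)]; linarith)⟩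
        rw [Function.mem_support, inner_add_right, h0, inner_smul_right,
          real_inner_self_eq_norm_sq, zero_add]
        have : ‖u‖ ≠ 0 := norm_ne_zero_iff.2 hu
        positivity
      · exact ⟨x, by rw [Function.mem_support]; exact pow_ne_zero 2 h0, hx⟩
    exact lt_of_lt_of_le (hopen.measure_pos volume hne)
      (measure_mono (inter_subset_inter_right _ interior_subset))
  · exact Filter.Eventually.of_forall fun x => sq_nonneg _
  · exact integrable_K hK.comp hc

/-- Invariance of integrals under a linear isometry preserving the domain. -/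
theorem int_inv (S : E n ≃ₗᵢ[ℝ] E n) {K : Set (E n)} (hK : S '' K = K) (g : E n → ℝ) :
    ∫ x in K, g (S x) = ∫ x in K, g x := by
  have h := S.measurePreserving.setIntegral_image_emb
    S.toHomeomorph.measurableEmbedding g K
  rw [hK] at h
  exact h.symm

/-- Image of a set with a symmetry under a map commuting with it. -/
theorem image_comm {S T : E n → E n} {K : Set (E n)} (hK : S '' K = K)
    (h : ∀ x, S (T x) = T (S x)) : S '' (T '' K) = T '' K := by
  rw [image_image]
  simp only [h]
  rw [← image_image T S, hK]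

theorem sg_inner {v : E n} (hv : ‖v‖ = 1) (x : E n) : inner ℝ v (sg v x) = -(inner ℝ v x : ℝ) := by
  unfold sg
  rw [inner_sub_right, inner_smul_right, real_inner_self_eq_norm_sq, hv]
  ring

theorem sg_sg {v : E n} (hv : ‖v‖ = 1) (x : E n) : sg v (sg v x) = x := by
  conv_lhs => rw [sg, sg_inner hv]
  unfold sg
  module

theorem sg_norm {v : E n} (hv : ‖v‖ = 1) (x : E n) : ‖sg v x‖ = ‖x‖ := by
  have h1 : ‖sg v x‖ ^ 2 = ‖x‖ ^ 2 := by
    unfold sg
    rw [norm_sub_sq_real, inner_smul_right, norm_smul, hv, real_inner_comm v x, Real.norm_eq_abs,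
      mul_one, sq_abs]
    ring
  exact (sq_eq_sq₀ (norm_nonneg _) (norm_nonneg _)).1 h1

theorem sg_image_iff {v : E n} (hv : ‖v‖ = 1) {K : Set (E n)} :
    sg v '' K = K ↔ ∀ x, sg v x ∈ K ↔ x ∈ K := by
  constructor
  · intro h x
    constructor
    · intro hx
      have : sg v (sg v x) ∈ sg v '' K := ⟨_, hx, rfl⟩
      rwa [sg_sg hv, h] at this
    · intro hx
      rw [← h]
      exact ⟨x, hx, rfl⟩
  · intro h
    apply Subset.antisymm
    · rintro _ ⟨x, hx, rfl⟩
      exact (h x).2 hx
    · intro x hx
      exact ⟨sg v x, (h x).2 hx, sg_sg hv x⟩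

theorem norm_comb {p q : E n} (h : ON p q) {α β : ℝ} (hab : α ^ 2 + β ^ 2 = 1) :
    ‖α • p + β • q‖ = 1 := by
  have h1 : ‖α • p + β • q‖ ^ 2 = 1 := by
    rw [norm_add_sq_real, norm_smul, norm_smul, inner_smul_left, inner_smul_right, h.p1, h.q1, h.pq,
      Real.norm_eq_abs, Real.norm_eq_abs, mul_one, mul_one, sq_abs, sq_abs]
    simpa using hab
  exact (sq_eq_sq₀ (norm_nonneg _) zero_le_one).1 (by rw [h1, one_pow])

/-- The rotation argument: invariance under the reflections of all coordinate planes implies
invariance under all reflections whose normal is orthogonal to the axis. -/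
theorem rev_of_planes {m : ℕ} {K : Set (E (m + 3))}
    (h : ∀ i j : Fin (m + 2), i ≠ j → ∀ α β : ℝ, α ^ 2 + β ^ 2 = 1 →
      sg (α • bb (m + 3) i.succ + β • bb (m + 3) j.succ) '' K = K) : RevSym K (bb (m + 3) 0) := by
  -- normal form
  have key : ∀ S : Finset (Fin (m + 2)), ∀ x : E (m + 3), (∀ j, j ∉ S → j ≠ 0 → x j.succ = 0) →
      (x ∈ K ↔ x 0 • bb (m + 3) 0 + √(‖x‖ ^ 2 - (x 0) ^ 2) • bb (m + 3) (Fin.succ 0) ∈ K) := by
    intro S
    induction S using Finset.induction_on with
    | empty =>
      intro x hx
      have hx' : x = x 0 • bb (m + 3) 0 + x (Fin.succ 0) • bb (m + 3) (Fin.succ 0) := by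
        ext k
        simp only [PiLp.add_apply, PiLp.smul_apply, smul_eq_mul, bb_apply]
        refine Fin.cases ?_ (fun j => ?_) k
        · rw [if_pos rfl, if_neg (Fin.succ_ne_zero 0).symm]; ring
        · rw [if_neg (Fin.succ_ne_zero j)]
          by_cases hj : j = 0
          · rw [hj, if_pos rfl]; ring
          · rw [if_neg (fun hh => hj (Fin.succ_injective _ hh)), hx j (Finset.notMem_empty j) hj]
            ring
      have hnorm : ‖x‖ ^ 2 - (x 0) ^ 2 = (x (Fin.succ 0)) ^ 2 := by
        rw [EuclideanSpace.norm_sq_eq, Fin.sum_univ_succ, Fin.sum_univ_succ]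
        have : ∀ i : Fin (m + 1), ‖x i.succ.succ‖ ^ 2 = 0 := by
          intro i
          rw [hx i.succ (Finset.notMem_empty _) (Fin.succ_ne_zero i)]
          simp
        rw [Finset.sum_eq_zero (fun i _ => this i)]
        simp only [Real.norm_eq_abs, sq_abs]
        ring
      rw [hnorm, Real.sqrt_sq_eq_abs]
      rcases le_total 0 (x (Fin.succ 0)) with h0 | h0
      · rw [abs_of_nonneg h0, ← hx']
      · rw [abs_of_nonpos h0]
        have h1 := h 0 1 (by simp) 1 0 (by norm_num)
        rw [one_smul, zero_smul, add_zero] at h1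
        have h2 := (sg_image_iff (bb_norm (Fin.succ 0))).1 h1 x
        rw [← h2]
        have h3 : sg (bb (m + 3) (Fin.succ 0)) x =
            x 0 • bb (m + 3) 0 + (-x (Fin.succ 0)) • bb (m + 3) (Fin.succ 0) := by
          unfold sg
          rw [bb_inner]
          conv_lhs => rw [hx']
          simp only [PiLp.add_apply, PiLp.smul_apply, smul_eq_mul, bb_apply]
          rw [if_neg (Fin.succ_ne_zero 0), if_pos trivial]
          module
        rw [h3]
    | insert j S hjS ih =>
      intro x hx
      by_cases hj : j = 0 ∨ x j.succ = 0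
      · apply ih
        intro k hk hk0
        by_cases hkj : k = j
        · rcases hj with hj | hj
          · exact absurd (hkj.trans hj) hk0
          · rw [hkj]; exact hj
        · exact hx k (by simp [hkj, hk]) hk0
      push Not at hj
      obtain ⟨hj0, hxj⟩ := hj
      set a : ℝ := x (Fin.succ 0) with ha
      set b : ℝ := x j.succ with hb
      set r : ℝ := √(a ^ 2 + b ^ 2) with hr
      have hr2 : r ^ 2 = a ^ 2 + b ^ 2 := Real.sq_sqrt (by positivity)
      have hN : 0 < (a - r) ^ 2 + b ^ 2 := by positivity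
      set N : ℝ := √((a - r) ^ 2 + b ^ 2) with hNdef
      have hN2 : N ^ 2 = (a - r) ^ 2 + b ^ 2 := Real.sq_sqrt hN.le
      have hNpos : 0 < N := Real.sqrt_pos.2 hN
      set α : ℝ := (a - r) / N with hα
      set β : ℝ := b / N with hβ
      have hαN : α * N = a - r := by rw [hα]; field_simp
      have hβN : β * N = b := by rw [hβ]; field_simp
      have hab : α ^ 2 + β ^ 2 = 1 := by
        rw [hα, hβ, div_pow, div_pow, ← add_div, ← hN2, div_self (by positivity)]
      have hne : (0 : Fin (m + 2)) ≠ j := fun hh => hj0 hh.symm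
      have hON : ON (bb (m + 3) (Fin.succ 0)) (bb (m + 3) j.succ) :=
        bb_on (fun hh => hne (Fin.succ_injective _ hh))
      have hinv := h 0 j hne α β hab
      set v : E (m + 3) := α • bb (m + 3) (Fin.succ 0) + β • bb (m + 3) j.succ with hv
      have hv1 : ‖v‖ = 1 := norm_comb hON hab
      have hvx : inner ℝ v x = N / 2 := by
        rw [hv, inner_add_left, inner_smul_left, inner_smul_left, bb_inner, bb_inner]
        simp only [conj_trivial]
        have h1 : N * (α * a + β * b) = N * (N / 2) := by
          have h2 : N * (α * a + β * b) = (α * N) * a + (β * N) * b := by ring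
          rw [h2, hαN, hβN]
          nlinarith
        exact mul_left_cancel₀ hNpos.ne' h1
      have hy : sg v x = x - (a - r) • bb (m + 3) (Fin.succ 0) - b • bb (m + 3) j.succ := by
        unfold sg
        rw [hvx]
        have h1 : (2 * (N / 2)) • v = (α * N) • bb (m + 3) (Fin.succ 0) +
            (β * N) • bb (m + 3) j.succ := by
          rw [hv]
          module
        rw [h1, hαN, hβN]
        abel
      rw [← (sg_image_iff hv1).1 hinv x]
      have hy0 : (sg v x) 0 = x 0 := by
        rw [hy]
        simp only [PiLp.sub_apply, PiLp.smul_apply, smul_eq_mul, bb_apply]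
        rw [if_neg (Fin.succ_ne_zero 0).symm, if_neg (Fin.succ_ne_zero j).symm]
        ring
      have h1 := ih (sg v x) ?_
      · rw [hy0, sg_norm hv1] at h1
        exact h1
      · intro k hk hk0
        rw [hy]
        simp only [PiLp.sub_apply, PiLp.smul_apply, smul_eq_mul, bb_apply]
        rw [if_neg (fun hh => hk0 (Fin.succ_injective _ hh))]
        by_cases hkj : k = j
        · rw [hkj, if_pos rfl]; ring
        · rw [if_neg (fun hh => hkj (Fin.succ_injective _ hh)), hx k (by simp [hkj, hk]) hk0]
          ring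
  intro v hv hv0
  rw [sg_image_iff hv]
  intro x
  have h1 := key Finset.univ x (fun j hj => absurd (Finset.mem_univ j) hj)
  have h2 := key Finset.univ (sg v x) (fun j hj => absurd (Finset.mem_univ j) hj)
  rw [bb_inner] at hv0
  have h3 : (sg v x) 0 = x 0 := by
    unfold sg
    simp only [PiLp.sub_apply, PiLp.smul_apply, smul_eq_mul]
    rw [hv0]
    ring
  rw [h1, h2, h3, sg_norm hv]

/-- Diagonal scaling. -/
noncomputable def dg (c : Fin n → ℝ) (hc : ∀ i, c i ≠ 0) : E n ≃L[ℝ] E n :=
  LinearEquiv.toContinuousLinearEquiv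
    { toFun := fun x => WithLp.toLp 2 (fun i => c i * x i)
      map_add' := fun x y => by ext i; simp [mul_add]
      map_smul' := fun a x => by ext i; simp; ring
      invFun := fun x => WithLp.toLp 2 (fun i => (c i)⁻¹ * x i)
      left_inv := fun x => by ext i; simp [hc i]
      right_inv := fun x => by ext i; simp [hc i] }

theorem dg_apply (c : Fin n → ℝ) (hc : ∀ i, c i ≠ 0) (x : E n) (i : Fin n) :
    dg c hc x i = c i * x i := rfl

theorem dg_iot (c : Fin n → ℝ) (hc : ∀ i, c i ≠ 0) (i j : Fin n) (x : E n) :
    iot (bb n i) (bb n j) (dg c hc x) = dg c hc (iot (bb n i) (bb n j) x) := by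
  ext k
  rw [iot_bb, dg_apply, dg_apply, dg_apply, dg_apply, iot_bb]
  split_ifs with h1 h2 h2
  · subst h1; subst h2; ring
  · subst h1; ring
  · subst h2; ring
  · ring

theorem combine (hImg : S_img) (hRefl : S_refl) (hPlane : S_plane) : S_combine := by
  intro n K δ lam hn hCS hK
  have hcb := hCS.cb
  obtain ⟨m, rfl⟩ : ∃ m, n = m + 2 := ⟨n - 2, by omega⟩
  rcases Nat.eq_zero_or_pos m with hm | hm
  · -- three-dimensional case
    subst hm
    set p : E 3 := bb 3 (Fin.succ 0) with hp
    set q : E 3 := bb 3 (Fin.succ 1) with hq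
    have hpq : ON p q := bb_on (by decide)
    have hKi : iot p q '' K = K := hK 0 1 (by decide)
    obtain ⟨ε, hε, hr⟩ := (hRefl (by norm_num) hCS hpq hKi).1
    set K1 := gg ε q '' K with hK1
    have hCS1 : CS K1 _ _ := hImg hCS (ggL hpq.q1 hε.ne')
    have hK1i : iot p q '' K1 = K1 := image_comm hKi (iot_gg hpq ε)
    set c : ℝ := (√2)⁻¹ with hc
    have hcc : c * c = 1 / 2 := by
      rw [hc, ← mul_inv, Real.mul_self_sqrt (by norm_num)]; norm_num
    have hcpos : 0 < c := by positivity
    set p' : E 3 := c • (p + q) with hp'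
    set q' : E 3 := c • (p - q) with hq'
    have hon : ON p' q' := by
      refine ⟨?_, ?_, ?_⟩
      · have : ‖p'‖ ^ 2 = 1 := by
          rw [← real_inner_self_eq_norm_sq, hp', inner_smul_left, inner_smul_right, inner_add_left,
            inner_add_right, inner_add_right, hpq.pp, hpq.qq, hpq.pq, hpq.qp]
          simp only [conj_trivial]
          linarith
        exact (sq_eq_sq₀ (norm_nonneg _) zero_le_one).1 (by rw [this, one_pow])
      · have : ‖q'‖ ^ 2 = 1 := by
          rw [← real_inner_self_eq_norm_sq, hq', inner_smul_left, inner_smul_right, inner_sub_left,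
            inner_sub_right, inner_sub_right, hpq.pp, hpq.qq, hpq.pq, hpq.qp]
          simp only [conj_trivial]
          linarith
        exact (sq_eq_sq₀ (norm_nonneg _) zero_le_one).1 (by rw [this, one_pow])
      · rw [hp', hq', inner_smul_left, inner_smul_right, inner_add_left,
            inner_sub_right, inner_sub_right, hpq.pp, hpq.qq, hpq.pq, hpq.qp]
        simp only [conj_trivial]
        ring
    have hiot : ∀ x : E 3, iot p' q' x = iot p q x := by
      intro x
      unfold iot
      rw [hp', hq', inner_smul_left, inner_smul_left, inner_add_left, inner_sub_left]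
      simp only [conj_trivial]
      generalize (inner ℝ p x : ℝ) = a
      generalize (inner ℝ q x : ℝ) = b
      have h1 : (2 * (c * (a + b))) • c • (p + q) = (a + b) • (p + q) := by
        rw [smul_smul]; congr 1; linear_combination (2 * (a + b)) * hcc
      have h2 : (2 * (c * (a - b))) • c • (p - q) = (a - b) • (p - q) := by
        rw [smul_smul]; congr 1; linear_combination (2 * (a - b)) * hcc
      rw [h1, h2]
      module
    have hiot' : iot p' q' = iot p q := funext hiot
    have hp'r : ∀ x : E 3, inner ℝ p' (rr p q x) = (inner ℝ p' x : ℝ) := by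
      intro x
      rw [hp', inner_smul_left, inner_smul_left, inner_add_left, inner_add_left, inner_p_rr hpq,
        inner_q_rr hpq]
      ring
    have hq'r : ∀ x : E 3, inner ℝ q' (rr p q x) = -(inner ℝ q' x : ℝ) := by
      intro x
      rw [hq', inner_smul_left, inner_smul_left, inner_sub_left, inner_sub_left, inner_p_rr hpq,
        inner_q_rr hpq]
      ring
    have hmix : ∫ x in K1, (inner ℝ p' x : ℝ) * inner ℝ q' x = 0 := by
      have h1 := int_inv (rrL hpq) hr (fun x => (inner ℝ p' x : ℝ) * inner ℝ q' x)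
      simp only [rrL_apply, hp'r, hq'r, mul_neg, integral_neg] at h1
      linarith
    set Mp := ∫ x in K1, (inner ℝ p' x) ^ 2 with hMp
    set Mq := ∫ x in K1, (inner ℝ q' x) ^ 2 with hMq
    have hMp0 : 0 < Mp := mom_pos hCS1.cb hon.p0
    have hMq0 : 0 < Mq := mom_pos hCS1.cb hon.symm.p0
    set η : ℝ := √(Mp / Mq) with hη
    have hη0 : 0 < η := Real.sqrt_pos.2 (div_pos hMp0 hMq0)
    have hη2 : η ^ 2 * Mq = Mp := by
      rw [hη, Real.sq_sqrt (div_pos hMp0 hMq0).le]
      field_simp
    set K2 := gg η q' '' K1 with hK2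
    have hCS2 : CS K2 _ _ := hImg hCS1 (ggL hon.q1 hη0.ne')
    have hK2i : iot p' q' '' K2 = K2 := by
      apply image_comm _ (iot_gg hon η)
      rw [hiot']
      exact hK1i
    have hint : ∀ g : E 3 → ℝ, ∫ x in K2, g x =
        |((ggL hon.q1 hη0.ne' : E 3 ≃L[ℝ] E 3) : E 3 →L[ℝ] E 3).det| * ∫ x in K1, g (gg η q' x) :=
      fun g => integral_image (ggL hon.q1 hη0.ne') hCS1.cb.comp g
    have hpl := hPlane (by norm_num) hCS2 hon hK2i
      (by
        rw [hint, hint]
        simp only [inner_p_gg hon.pq, inner_q_gg hon.q1, mul_pow, integral_const_mul]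
        rw [← hMp, ← hMq, hη2])
      (by
        rw [hint]
        simp only [inner_p_gg hon.pq, inner_q_gg hon.q1]
        have h1 : ∀ x : E 3, (inner ℝ p' x : ℝ) * (η * inner ℝ q' x) =
            η * (inner ℝ p' x * inner ℝ q' x) := fun x => by ring
        simp only [h1, integral_const_mul, hmix, mul_zero])
    refine ⟨(ggL hpq.q1 hε.ne').trans (ggL hon.q1 hη0.ne'), ?_⟩
    have himg : ((ggL hpq.q1 hε.ne').trans (ggL hon.q1 hη0.ne') : E 3 ≃L[ℝ] E 3) '' K = K2 := by
      rw [hK2, hK1, image_image]
      rfl
    rw [himg]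
    intro v hv hv0
    rw [bb_inner] at hv0
    have hv0' : v 0 = 0 := hv0
    have hvn : (v (Fin.succ 0)) ^ 2 + (v (Fin.succ 1)) ^ 2 = 1 := by
      have h1 : ‖v‖ ^ 2 = 1 := by rw [hv, one_pow]
      rw [EuclideanSpace.norm_sq_eq, Fin.sum_univ_three] at h1
      simp only [Real.norm_eq_abs, sq_abs] at h1
      rw [hv0'] at h1
      have h2 : (Fin.succ 0 : Fin 3) = 1 := rfl
      have h3 : (Fin.succ 1 : Fin 3) = 2 := rfl
      rw [h2, h3]
      linarith
    set a : ℝ := v (Fin.succ 0) with ha
    set b : ℝ := v (Fin.succ 1) with hb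
    have h1 := hpl (c * (a + b)) (c * (a - b)) (by linear_combination (2 * (a ^ 2 + b ^ 2)) * hcc + hvn)
    have h2 : (c * (a + b)) • p' + (c * (a - b)) • q' = v := by
      have h3 : v = a • p + b • q := by
        ext k
        simp only [PiLp.add_apply, PiLp.smul_apply, smul_eq_mul, hp, hq, bb_apply]
        fin_cases k
        · simp [hv0']
        · simp [ha]
        · simp [hb]
      rw [h3, hp', hq', smul_smul, smul_smul]
      have h4 : c * (a + b) * c = (a + b) / 2 := by linear_combination (a + b) * hcc
      have h5 : c * (a - b) * c = (a - b) / 2 := by linear_combination (a - b) * hcc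
      rw [h4, h5]
      module
    rw [h2] at h1
    exact h1
  · -- higher-dimensional case: a third index
    have hthird : ∀ i j : Fin (m + 2), ∃ k, k ≠ i ∧ k ≠ j := by
      intro i j
      have h1 : ({i, j} : Finset (Fin (m + 2))).card < Fintype.card (Fin (m + 2)) := by
        rw [Fintype.card_fin]
        exact lt_of_le_of_lt Finset.card_le_two (by omega)
      obtain ⟨k, hk⟩ : ∃ k, k ∉ ({i, j} : Finset (Fin (m + 2))) := by
        by_contra hcon
        push Not at hcon
        have := Finset.eq_univ_iff_forall.2 hcon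
        rw [this, Finset.card_univ] at h1
        exact lt_irrefl _ h1
      refine ⟨k, ?_, ?_⟩
      · rintro rfl; simp at hk
      · rintro rfl; simp at hk
    set M : Fin (m + 3) → ℝ := fun i => ∫ x in K, (inner ℝ (bb (m + 3) i) x) ^ 2 with hM
    have hMpos : ∀ i, 0 < M i := fun i => mom_pos hcb (by
      intro h0
      have := bb_norm i
      rw [h0, norm_zero] at this
      exact zero_ne_one this)
    set c : Fin (m + 3) → ℝ := fun i => (√(M i))⁻¹ with hc
    have hcpos : ∀ i, 0 < c i := fun i => inv_pos.2 (Real.sqrt_pos.2 (hMpos i))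
    have hc2 : ∀ i, c i ^ 2 * M i = 1 := by
      intro i
      simp only [hc]
      rw [inv_pow, Real.sq_sqrt (hMpos i).le, inv_mul_cancel₀ (hMpos i).ne']
    set T : E (m + 3) ≃L[ℝ] E (m + 3) := dg c (fun i => (hcpos i).ne') with hT
    have hTb : ∀ (i : Fin (m + 3)) (x : E (m + 3)), inner ℝ (bb (m + 3) i) (T x) =
        c i * inner ℝ (bb (m + 3) i) x := by
      intro i x
      rw [bb_inner, bb_inner]
      rfl
    refine ⟨T, ?_⟩
    have hCS' := hImg hCS T
    have hint : ∀ g : E (m + 3) → ℝ, ∫ x in T '' K, g x =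
        |(T : E (m + 3) →L[ℝ] E (m + 3)).det| * ∫ x in K, g (T x) :=
      fun g => integral_image T hcb.comp g
    apply rev_of_planes
    intro i j hij
    have hon : ON (bb (m + 3) i.succ) (bb (m + 3) j.succ) :=
      bb_on (fun hh => hij (Fin.succ_injective _ hh))
    apply hPlane (by omega) hCS' hon
    · exact image_comm (hK i j hij) (dg_iot c _ i.succ j.succ)
    · rw [hint, hint]
      simp only [hTb, mul_pow, integral_const_mul]
      have h1 := hc2 i.succ
      have h2 := hc2 j.succ
      simp only [hM] at h1 h2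
      rw [h1, h2]
    · rw [hint]
      have h1 : ∀ x : E (m + 3), (inner ℝ (bb (m + 3) i.succ) (T x) : ℝ) *
          inner ℝ (bb (m + 3) j.succ) (T x) = (c i.succ * c j.succ) *
            (inner ℝ (bb (m + 3) i.succ) x * inner ℝ (bb (m + 3) j.succ) x) := by
        intro x
        rw [hTb, hTb]
        ring
      simp only [h1, integral_const_mul]
      obtain ⟨k, hki, hkj⟩ := hthird i j
      have hik : ON (bb (m + 3) i.succ) (bb (m + 3) k.succ) :=
        bb_on (fun hh => hki (Fin.succ_injective _ hh).symm)
      have h2 := int_inv (iotL hik) (hK i k hki.symm)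
        (fun x => (inner ℝ (bb (m + 3) i.succ) x : ℝ) * inner ℝ (bb (m + 3) j.succ) x)
      have h3 : ∀ x : E (m + 3), (inner ℝ (bb (m + 3) j.succ)
          (iot (bb (m + 3) i.succ) (bb (m + 3) k.succ) x) : ℝ) = inner ℝ (bb (m + 3) j.succ) x := by
        intro x
        rw [bb_inner, bb_inner, iot_bb, if_neg (fun hh => hij (Fin.succ_injective _ hh).symm),
          if_neg (fun hh => hkj (Fin.succ_injective _ hh).symm)]
        ring
      simp only [iotL_apply, inner_p_iot hik, h3, neg_mul, integral_neg] at h2
      have h4 : ∫ x in K, (inner ℝ (bb (m + 3) i.succ) x : ℝ) * inner ℝ (bb (m + 3) j.succ) x = 0 := by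
        linarith
      rw [h4]
      ring

end Pool.Agent.Helper61.SY
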