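import Pool.Agent.Helper73.SY.Base

/-!
# Integration along parallel lines (used for module RID of MP_a2630c_SY)
-/

open MeasureTheory Set Metric Real Filter Topology
open scoped RealInnerProductSpace ENNReal
open Pool.Agent.Helper16.Buoy (E cap IsEllipsoid Homothetic buoyancyBody)

namespace Pool.Agent.Helper61.SY

variable {n : ℕ}

/-- The indicator of a slab orthogonal to `w` of width one (in units of `w`). -/
noncomputable def psi (w x : E n) : ℝ≥0∞ :=
  (Ico (0 : ℝ) 1).indicator (fun _ => 1) (inner ℝ w x / ‖w‖ ^ 2)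

theorem psi_meas (w : E n) : Measurable (psi w) := by
  unfold psi
  exact (measurable_const.indicator measurableSet_Ico).comp (by fun_prop)

theorem psi_line {w : E n} (hw : w ≠ 0) (x : E n) : ∫⁻ r : ℝ, psi w (x - r • w) = 1 := by
  have h1 : ∀ r : ℝ, psi w (x - r • w) =
      (Ico (0 : ℝ) 1).indicator (fun _ => (1 : ℝ≥0∞)) (inner ℝ w x / ‖w‖ ^ 2 - r) := by
    intro r
    unfold psi
    congr 1
    rw [inner_sub_right, inner_smul_right, real_inner_self_eq_norm_sq]
    have : ‖w‖ ≠ 0 := norm_ne_zero_iff.2 hw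
    field_simp
  simp_rw [h1]
  rw [lintegral_sub_left_eq_self (fun r => (Ico (0 : ℝ) 1).indicator (fun _ => (1 : ℝ≥0∞)) r)
    (inner ℝ w x / ‖w‖ ^ 2), lintegral_indicator measurableSet_Ico]
  simp

/-- Integration along the lines parallel to `w`. -/
theorem shear {w : E n} (hw : w ≠ 0) {g : E n → ℝ≥0∞} (hg : Measurable g) :
    ∫⁻ x, g x = ∫⁻ x, psi w x * ∫⁻ r : ℝ, g (x + r • w) := by
  have hm : Measurable fun p : E n × ℝ => psi w p.1 * g (p.1 + p.2 • w) :=
    ((psi_meas w).comp measurable_fst).mul (hg.comp (by fun_prop))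
  have hm2 : Measurable fun p : ℝ × E n => psi w (p.2 - p.1 • w) * g p.2 :=
    ((psi_meas w).comp (by fun_prop)).mul (hg.comp measurable_snd)
  have h1 : ∀ x, psi w x * ∫⁻ r : ℝ, g (x + r • w) = ∫⁻ r : ℝ, psi w x * g (x + r • w) := by
    intro x
    rw [lintegral_const_mul]
    exact hg.comp (by fun_prop)
  simp_rw [h1]
  rw [lintegral_lintegral_swap hm.aemeasurable]
  have h2 : ∀ r : ℝ, ∫⁻ x, psi w x * g (x + r • w) = ∫⁻ x, psi w (x - r • w) * g x := by
    intro r
    rw [← lintegral_add_right_eq_self (fun x => psi w (x - r • w) * g x) (r • w)]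
    simp
  simp_rw [h2]
  rw [lintegral_lintegral_swap hm2.aemeasurable]
  congr 1
  funext x
  rw [lintegral_mul_const, psi_line hw, one_mul]
  exact (psi_meas w).comp (by fun_prop)

/-- The positive and negative parts of an integrable function with zero integral. -/
theorem parts_eq {α : Type*} [MeasurableSpace α] {μ : Measure α} {g : α → ℝ}
    (hg : Integrable g μ) (h : ∫ x, g x ∂μ = 0) :
    ∫⁻ x, ENNReal.ofReal (g x) ∂μ = ∫⁻ x, ENNReal.ofReal (-g x) ∂μ := by
  rw [integral_eq_lintegral_pos_part_sub_lintegral_neg_part hg] at h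
  have h1 : ∫⁻ x, ENNReal.ofReal (g x) ∂μ ≠ ⊤ := by
    have := hg.lintegral_lt_top
    exact this.ne
  have h2 : ∫⁻ x, ENNReal.ofReal (-g x) ∂μ ≠ ⊤ := by
    have := hg.neg.lintegral_lt_top
    exact this.ne
  exact (ENNReal.toReal_eq_toReal_iff' h1 h2).1 (by linarith)

/-- If all integrals along lines parallel to `w` vanish then so does the integral. -/
theorem shear_zero {w : E n} (hw : w ≠ 0) {g : E n → ℝ} (hm : Measurable g) (hg : Integrable g)
    (h : ∀ x, Integrable (fun r : ℝ => g (x + r • w)) ∧ ∫ r : ℝ, g (x + r • w) = 0) :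
    ∫ x, g x = 0 := by
  rw [integral_eq_lintegral_pos_part_sub_lintegral_neg_part hg,
    shear hw (g := fun x => ENNReal.ofReal (g x)) (by fun_prop),
    shear hw (g := fun x => ENNReal.ofReal (-g x)) (by fun_prop)]
  have : ∀ x, ∫⁻ r : ℝ, ENNReal.ofReal (g (x + r • w)) = ∫⁻ r : ℝ, ENNReal.ofReal (-g (x + r • w)) :=
    fun x => parts_eq (h x).1 (h x).2
  simp_rw [this]
  ring

/-- The integral of the derivative of a function over an interval where it is nonnegative. -/
theorem int_pos_part {φ φ' : ℝ → ℝ} {A B : ℝ} (hc : Continuous φ)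
    (hd : ∀ r ∈ Ioo A B, HasDerivAt φ (φ' r) r) (hA : φ A ≤ 0) (hB : φ B ≤ 0)
    (hi : IntegrableOn φ' (Ioo A B)) (hI : OrdConnected {r | r ∈ Ioo A B ∧ 0 ≤ φ r}) :
    ∫ r in {r | r ∈ Ioo A B ∧ 0 ≤ φ r}, φ' r = 0 := by
  set I : Set ℝ := {r | r ∈ Ioo A B ∧ 0 ≤ φ r} with hIdef
  rcases I.eq_empty_or_nonempty with h0 | hne
  · rw [h0]; simp
  have hbb : BddBelow I := ⟨A, fun r hr => hr.1.1.le⟩
  have hba : BddAbove I := ⟨B, fun r hr => hr.1.2.le⟩
  set a := sInf I with ha
  set b := sSup I with hb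
  have hAa : A ≤ a := le_csInf hne fun r hr => hr.1.1.le
  have hbB : b ≤ B := csSup_le hne fun r hr => hr.1.2.le
  have hab : a ≤ b := by
    obtain ⟨r, hr⟩ := hne
    exact (csInf_le hbb hr).trans (le_csSup hba hr)
  have hsub1 : Ioo a b ⊆ I := by
    intro r hr
    obtain ⟨r1, hr1, h1⟩ := exists_lt_of_csInf_lt hne hr.1
    obtain ⟨r2, hr2, h2⟩ := exists_lt_of_lt_csSup hne hr.2
    exact hI.out hr1 hr2 ⟨h1.le, h2.le⟩
  have hsub2 : I ⊆ Icc a b := fun r hr => ⟨csInf_le hbb hr, le_csSup hba hr⟩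
  have hcl : ∀ r ∈ closure I, 0 ≤ φ r := by
    have : IsClosed {r | 0 ≤ φ r} := isClosed_le continuous_const hc
    exact fun r hr => closure_minimal (fun r hr => hr.2) this hr
  have hφa : φ a = 0 := by
    apply le_antisymm _ (hcl a (csInf_mem_closure hne hbb))
    by_contra hpos
    push Not at hpos
    have haA : A < a := lt_of_le_of_ne hAa (fun h => by rw [← h] at hpos; linarith)
    have h1 : ∀ᶠ r in 𝓝[<] a, 0 < φ r :=
      (hc.continuousAt.eventually (lt_mem_nhds hpos)).filter_mono nhdsWithin_le_nhds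
    have h2 : ∀ᶠ r in 𝓝[<] a, A < r := (eventually_gt_nhds haA).filter_mono nhdsWithin_le_nhds
    have h3 : ∀ᶠ r in 𝓝[<] a, r < a := eventually_mem_nhdsWithin
    obtain ⟨r, h4, h5, h6⟩ := (h1.and (h2.and h3)).exists
    have : r ∈ I := ⟨⟨h5, by linarith⟩, h4.le⟩
    have := csInf_le hbb this
    linarith
  have hφb : φ b = 0 := by
    apply le_antisymm _ (hcl b (csSup_mem_closure hne hba))
    by_contra hpos
    push Not at hpos
    have hbB' : b < B := lt_of_le_of_ne hbB (fun h => by rw [h] at hpos; linarith)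
    have h1 : ∀ᶠ r in 𝓝[>] b, 0 < φ r :=
      (hc.continuousAt.eventually (lt_mem_nhds hpos)).filter_mono nhdsWithin_le_nhds
    have h2 : ∀ᶠ r in 𝓝[>] b, r < B := (eventually_lt_nhds hbB').filter_mono nhdsWithin_le_nhds
    have h3 : ∀ᶠ r in 𝓝[>] b, b < r := eventually_mem_nhdsWithin
    obtain ⟨r, h4, h5, h6⟩ := (h1.and (h2.and h3)).exists
    have : r ∈ I := ⟨⟨by linarith, h5⟩, h4.le⟩
    have := le_csSup hba this
    linarith
  have hae : I =ᵐ[volume] Ioc a b := by
    have h1 : Ioo a b =ᵐ[volume] Icc a b := Ioo_ae_eq_Icc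
    have h2 : Ioo a b =ᵐ[volume] Ioc a b := Ioo_ae_eq_Ioc
    refine Filter.EventuallyEq.trans ?_ h2
    filter_upwards [h1] with r hr
    apply propext
    constructor
    · intro hrI
      have h3 : Icc a b r := hsub2 hrI
      rw [hr]
      exact h3
    · intro h3
      exact hsub1 h3
  rw [setIntegral_congr_set hae, ← intervalIntegral.integral_of_le hab,
    intervalIntegral.integral_eq_sub_of_hasDerivAt_of_le hab hc.continuousOn, hφa, hφb, sub_zero]
  · intro r hr
    exact hd r (Ioo_subset_Ioo hAa hbB hr)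
  · rw [intervalIntegrable_iff_integrableOn_Ioo_of_le hab]
    exact hi.mono_set (Ioo_subset_Ioo hAa hbB)

end Pool.Agent.Helper61.SY
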