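import Pool.Agent.Helper61.SY.Line

/-!
# The integral identity for bodies of revolution (module RID of MP_a2630c_SY)

The function `φ x = W (<e,x>) - |x - <e,x> e|^2`, `W (z κ) = s κ ^ 2`, vanishes on the boundary of
`K`, and its derivative in the direction `e - κ f` (which is parallel to the hyperplanes with normal
`κ e + f`) is `Ω (<e,x>) + 2 κ <f,x>`. So the integral of this derivative over every chord of `K`
parallel to `e - κ f` vanishes.
-/

open MeasureTheory Set Metric Real Filter Topology
open scoped RealInnerProductSpace ENNReal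
open Pool.Agent.Helper16.Buoy (E cap IsEllipsoid Homothetic buoyancyBody)
open Pool.Agent.Helper73.HV (supp)
open Pool.Agent.Helper73.LR (CB vol GG Sol aff)
open Pool.Agent.Helper73.SY

namespace Pool.Agent.Helper61.SY

variable {n : ℕ} {K : Set (E n)} {X : E n → E n} {e f : E n}

open Classical in
/-- The square of the radius as a function of the axial coordinate. -/
noncomputable def WW (K : Set (E n)) (X : E n → E n) (e f : E n) (y : ℝ) : ℝ :=
  if y ∈ Ioo (-supp K (-e)) (supp K e) then (ss X e f (Function.invFun (zz X e f) y)) ^ 2 else 0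

theorem zz_mem (hP : Prof K X e f) (κ : ℝ) : zz X e f κ ∈ Ioo (-supp K (-e)) (supp K e) :=
  ⟨hP.zlo κ, hP.zup κ⟩

theorem zz_inv (hP : Prof K X e f) {y : ℝ} (hy : y ∈ Ioo (-supp K (-e)) (supp K e)) :
    zz X e f (Function.invFun (zz X e f) y) = y :=
  Function.invFun_eq (hP.zsurj y hy.1 hy.2)

theorem inv_zz (hP : Prof K X e f) (κ : ℝ) : Function.invFun (zz X e f) (zz X e f κ) = κ :=
  Function.leftInverse_invFun hP.zmono.injective κ

theorem WW_zz (hP : Prof K X e f) (κ : ℝ) : WW K X e f (zz X e f κ) = (ss X e f κ) ^ 2 := by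
  unfold WW
  rw [if_pos (zz_mem hP κ), inv_zz hP]

theorem WW_out {y : ℝ} (hy : y ∉ Ioo (-supp K (-e)) (supp K e)) : WW K X e f y = 0 := by
  unfold WW
  rw [if_neg hy]

theorem inv_mono (hP : Prof K X e f) :
    StrictMonoOn (Function.invFun (zz X e f)) (Ioo (-supp K (-e)) (supp K e)) := by
  intro y1 h1 y2 h2 h
  rw [← hP.zmono.lt_iff_lt, zz_inv hP h1, zz_inv hP h2]
  exact h

theorem inv_image (hP : Prof K X e f) :
    Function.invFun (zz X e f) '' Ioo (-supp K (-e)) (supp K e) = univ := by
  rw [eq_univ_iff_forall]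
  intro κ
  exact ⟨zz X e f κ, zz_mem hP κ, inv_zz hP κ⟩

theorem inv_cont (hP : Prof K X e f) {y : ℝ} (hy : y ∈ Ioo (-supp K (-e)) (supp K e)) :
    ContinuousAt (Function.invFun (zz X e f)) y := by
  apply (inv_mono hP).continuousAt_of_image_mem_nhds (isOpen_Ioo.mem_nhds hy)
  rw [inv_image hP]
  exact univ_mem

theorem WW_deriv (hP : Prof K X e f) {Ω : ℝ → ℝ}
    (hΩ : ∀ κ, Ω (zz X e f κ) = -2 * κ * ss X e f κ) {y : ℝ}
    (hy : y ∈ Ioo (-supp K (-e)) (supp K e)) : HasDerivAt (WW K X e f) (Ω y) y := by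
  set g := Function.invFun (zz X e f) with hg
  have hz : HasDerivAt (zz X e f) (deriv (zz X e f) (g y)) (g y) :=
    ((hP.zC1.differentiable one_ne_zero) (g y)).hasDerivAt
  have hs : HasDerivAt (ss X e f) (deriv (ss X e f) (g y)) (g y) :=
    ((hP.sC1.differentiable one_ne_zero) (g y)).hasDerivAt
  have hgd : HasDerivAt g (deriv (zz X e f) (g y))⁻¹ y := by
    apply HasDerivAt.of_local_left_inverse (inv_cont hP hy) hz (hP.zd _).ne'
    filter_upwards [isOpen_Ioo.mem_nhds hy] with y' hy'
    exact zz_inv hP hy'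
  have h1 := (hs.comp y hgd).pow 2
  have h2 : WW K X e f =ᶠ[𝓝 y] (ss X e f ∘ g) ^ 2 := by
    filter_upwards [isOpen_Ioo.mem_nhds hy] with y' hy'
    show WW K X e f y' = (ss X e f (g y')) ^ 2
    unfold WW
    rw [if_pos hy']
  have h3 := h1.congr_of_eventuallyEq h2
  have hzd := (hP.zd (g y)).ne'
  have h4 : Ω y = -2 * g y * ss X e f (g y) := by
    have h5 := hΩ (g y)
    rw [hg, zz_inv hP hy] at h5
    exact h5
  refine h3.congr_deriv ?_
  rw [h4, hP.sd]
  simp only [Function.comp_apply, Nat.add_one_sub_one, pow_one, Nat.cast_ofNat]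
  field_simp

theorem Om_cont (hP : Prof K X e f) {Ω : ℝ → ℝ}
    (hΩ : ∀ κ, Ω (zz X e f κ) = -2 * κ * ss X e f κ) :
    ContinuousOn Ω (Ioo (-supp K (-e)) (supp K e)) := by
  have h1 : ContinuousOn (fun y => -2 * (Function.invFun (zz X e f) y) *
      ss X e f (Function.invFun (zz X e f) y)) (Ioo (-supp K (-e)) (supp K e)) := by
    intro y hy
    apply ContinuousAt.continuousWithinAt
    have := inv_cont hP hy
    exact (continuousAt_const.mul this).mul (hP.sC1.continuous.continuousAt.comp this)
  apply h1.congr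
  intro y hy
  have h5 := hΩ (Function.invFun (zz X e f) y)
  rw [zz_inv hP hy] at h5
  exact h5

/-- Membership in `K` in terms of `WW`. -/
theorem mem_iff (hP : Prof K X e f) {x : E n}
    (hx : (inner ℝ e x : ℝ) ∈ Ioo (-supp K (-e)) (supp K e)) :
    x ∈ K ↔ ‖x‖ ^ 2 - (inner ℝ e x : ℝ) ^ 2 ≤ WW K X e f (inner ℝ e x) := by
  obtain ⟨κ, hκ⟩ := hP.zsurj _ hx.1 hx.2
  have hee : inner ℝ e e = (1 : ℝ) := hP.ef.pp
  have h1 : ‖x - (inner ℝ e x : ℝ) • e‖ ^ 2 = ‖x‖ ^ 2 - (inner ℝ e x : ℝ) ^ 2 := by
    rw [← real_inner_self_eq_norm_sq, inner_sub_left, inner_sub_right, inner_sub_right,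
      inner_smul_left, inner_smul_right, inner_smul_right, inner_smul_left, hee,
      real_inner_self_eq_norm_sq, real_inner_comm e x]
    simp only [conj_trivial]
    ring
  rw [← h1, ← hκ, WW_zz hP, hκ, hP.mem]
  constructor
  · rintro (⟨κ', h2, h3⟩ | h2 | h2)
    · have : κ' = κ := hP.zmono.injective (by rw [← h2, hκ])
      rw [this] at h3
      exact pow_le_pow_left₀ (norm_nonneg _) h3 2
    · exfalso
      rw [h2, inner_smul_right, hee, mul_one] at hx
      exact lt_irrefl _ hx.2
    · exfalso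
      rw [h2, inner_smul_right, hee, mul_one] at hx
      exact lt_irrefl _ hx.1
  · intro h2
    left
    refine ⟨κ, hκ.symm, ?_⟩
    exact (sq_le_sq₀ (norm_nonneg _) (hP.spos κ).le).1 h2

/-- Points of `K` are in the open slab or on one of the two supporting hyperplanes. -/
theorem mem_slab (hP : Prof K X e f) {x : E n} (hx : x ∈ K) :
    (inner ℝ e x : ℝ) ∈ Ioo (-supp K (-e)) (supp K e) ∨ inner ℝ e x = supp K e ∨
      inner ℝ e x = -supp K (-e) := by
  have hee : inner ℝ e e = (1 : ℝ) := hP.ef.pp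
  rcases (hP.mem x).1 hx with (⟨κ', h2, h3⟩ | h2 | h2)
  · left
    rw [h2]
    exact zz_mem hP κ'
  · right; left
    rw [h2, inner_smul_right, hee, mul_one]
  · right; right
    rw [h2, inner_smul_right, hee, mul_one]

theorem WW_cont (hP : Prof K X e f) (hK : IsClosed K) : Continuous (WW K X e f) := by
  rw [continuous_iff_continuousAt]
  intro y
  by_cases hy : y ∈ Ioo (-supp K (-e)) (supp K e)
  · have hΩ : ∀ κ, (fun y => -2 * (Function.invFun (zz X e f) y) *
      ss X e f (Function.invFun (zz X e f) y)) (zz X e f κ) = -2 * κ * ss X e f κ := by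
      intro κ
      simp only
      rw [inv_zz hP]
    exact (WW_deriv hP (Ω := fun y => -2 * (Function.invFun (zz X e f) y) *
      ss X e f (Function.invFun (zz X e f) y)) hΩ hy).continuousAt
  have hee : inner ℝ e e = (1 : ℝ) := hP.ef.pp
  have hef : inner ℝ e f = (0 : ℝ) := hP.ef.pq
  have hfe : inner ℝ f e = (0 : ℝ) := hP.ef.qp
  have hff : inner ℝ f f = (1 : ℝ) := hP.ef.qq
  have hout : ∀ r : ℝ, 0 < r → y • e + r • f ∉ K := by
    intro r hr hmem
    have hie : inner ℝ e (y • e + r • f) = y := by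
      rw [inner_add_right, inner_smul_right, inner_smul_right, hee, hef]; ring
    have hif : inner ℝ f (y • e + r • f) = r := by
      rw [inner_add_right, inner_smul_right, inner_smul_right, hff, hfe]; ring
    rcases (hP.mem _).1 hmem with (⟨κ', h2, h3⟩ | h2 | h2)
    · rw [hie] at h2
      exact hy (h2 ▸ zz_mem hP κ')
    · rw [h2, inner_smul_right, hfe, mul_zero] at hif
      exact hr.ne hif
    · rw [h2, inner_smul_right, hfe, mul_zero] at hif
      exact hr.ne hif
  rw [ContinuousAt, WW_out hy, Metric.tendsto_nhds]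
  intro ε hε
  have hr : 0 < √ε := Real.sqrt_pos.2 hε
  have hcl : IsClosed {y' : ℝ | y' • e + (√ε) • f ∈ K} := hK.preimage (by fun_prop)
  have hev : ∀ᶠ y' in 𝓝 y, y' ∉ {y' : ℝ | y' • e + (√ε) • f ∈ K} :=
    hcl.isOpen_compl.mem_nhds (hout _ hr)
  filter_upwards [hev] with y' hy'
  rw [Real.dist_eq, sub_zero]
  by_cases h1 : y' ∈ Ioo (-supp K (-e)) (supp K e)
  · obtain ⟨κ, hκ⟩ := hP.zsurj _ h1.1 h1.2
    rw [← hκ, WW_zz hP, abs_of_nonneg (sq_nonneg _)]
    have h2 : ss X e f κ < √ε := by
      by_contra h3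
      push Not at h3
      apply hy'
      show y' • e + (√ε) • f ∈ K
      rw [hP.mem]
      left
      refine ⟨κ, ?_, ?_⟩
      · rw [hκ, inner_add_right, inner_smul_right, inner_smul_right, hee, hef]; ring
      · have h4 : inner ℝ e (y' • e + (√ε) • f) = y' := by
          rw [inner_add_right, inner_smul_right, inner_smul_right, hee, hef]; ring
        rw [h4, add_sub_cancel_left, norm_smul, hP.ef.q1, mul_one, Real.norm_eq_abs,
          abs_of_pos hr]
        exact h3
    have h3 : (ss X e f κ) ^ 2 < (√ε) ^ 2 := pow_lt_pow_left₀ h2 (hP.spos κ).le two_ne_zero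
    rwa [Real.sq_sqrt hε.le] at h3
  · rw [WW_out h1, abs_zero]
    exact hε

/-- `Ω` is integrable. -/
theorem Om_int (hP : Prof K X e f) (hK : IsClosed K) {Ω : ℝ → ℝ}
    (hΩ : ∀ κ, Ω (zz X e f κ) = -2 * κ * ss X e f κ) :
    IntegrableOn Ω (Ioo (-supp K (-e)) (supp K e)) := by
  have hW := WW_cont hP hK
  have h0 := zz_mem hP 0
  have h1 : IntegrableOn (fun y => -Ω y) (Ioc (zz X e f 0) (supp K e)) := by
    apply intervalIntegral.integrableOn_deriv_of_nonneg (g := fun y => -WW K X e f y)
    · exact hW.neg.continuousOn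
    · intro y hy
      exact (WW_deriv hP hΩ ⟨h0.1.trans hy.1, hy.2⟩).neg
    · intro y hy
      obtain ⟨κ, hκ⟩ := hP.zsurj y (h0.1.trans hy.1) hy.2
      rw [← hκ, hΩ]
      have : 0 < κ := by rw [← hP.zmono.lt_iff_lt, hκ]; exact hy.1
      have := hP.spos κ
      have h2 : 0 < κ * ss X e f κ := by positivity
      linarith
  have h2 : IntegrableOn Ω (Ioc (-supp K (-e)) (zz X e f 0)) := by
    apply intervalIntegral.integrableOn_deriv_of_nonneg (g := fun y => WW K X e f y)
    · exact hW.continuousOn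
    · intro y hy
      exact WW_deriv hP hΩ ⟨hy.1, hy.2.trans h0.2⟩
    · intro y hy
      obtain ⟨κ, hκ⟩ := hP.zsurj y hy.1 (hy.2.trans h0.2)
      rw [← hκ, hΩ]
      have : κ < 0 := by rw [← hP.zmono.lt_iff_lt, hκ]; exact hy.2
      have := hP.spos κ
      have h2 : κ * ss X e f κ < 0 := mul_neg_of_neg_of_pos ‹κ < 0› this
      linarith
  have h3 : IntegrableOn Ω (Ioc (zz X e f 0) (supp K e)) := by
    have := h1.neg
    simpa using this
  have h4 := h2.union h3
  rw [Ioc_union_Ioc_eq_Ioc h0.1.le h0.2.le] at h4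
  exact h4.mono_set Ioo_subset_Ioc_self

/-- The open slab. -/
def Slab (K : Set (E n)) (e : E n) : Set (E n) :=
  {x | (inner ℝ e x : ℝ) ∈ Ioo (-supp K (-e)) (supp K e)}

theorem slab_meas : MeasurableSet (Slab K e) := by
  unfold Slab
  exact measurableSet_Ioo.preimage (by fun_prop)

theorem Om_meas (hP : Prof K X e f) {Ω : ℝ → ℝ}
    (hΩ : ∀ κ, Ω (zz X e f κ) = -2 * κ * ss X e f κ) :
    Measurable ((Ioo (-supp K (-e)) (supp K e)).indicator Ω) := by
  classical
  rw [← Set.piecewise_eq_indicator]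
  exact (Om_cont hP hΩ).measurable_piecewise continuousOn_const measurableSet_Ioo

/-- Integrability of `Ω <e,x>` on `K`. -/
theorem Om_int3 (hP : Prof K X e f) (hK : IsCompact K) {Ω : ℝ → ℝ}
    (hΩ : ∀ κ, Ω (zz X e f κ) = -2 * κ * ss X e f κ) :
    IntegrableOn (fun x => Ω (inner ℝ e x)) (K ∩ Slab K e) := by
  have hKm := hK.measurableSet
  have hm := Om_meas hP hΩ
  set Ω1 := (Ioo (-supp K (-e)) (supp K e)).indicator Ω with hΩ1
  have hee : inner ℝ e e = (1 : ℝ) := hP.ef.pp
  have he0 : e ≠ 0 := hP.ef.p0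
  obtain ⟨R, hR⟩ := (Metric.isBounded_iff_subset_closedBall (0 : E n)).1 hK.isBounded
  have hcongr : ∀ x ∈ K ∩ Slab K e, Ω (inner ℝ e x) = Ω1 (inner ℝ e x) := by
    intro x hx
    rw [hΩ1, indicator_of_mem]
    exact hx.2
  rw [integrableOn_congr_fun hcongr (hKm.inter slab_meas)]
  refine ⟨(hm.comp (by fun_prop)).aestronglyMeasurable, ?_⟩
  have hI := (Om_int hP hK.isClosed hΩ).2
  set C : ℝ≥0∞ := ∫⁻ y in Ioo (-supp K (-e)) (supp K e), ‖Ω y‖ₑ with hC
  have hC' : C < ⊤ := hI
  show ∫⁻ x in K ∩ Slab K e, ‖Ω1 (inner ℝ e x)‖ₑ < ⊤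
  rw [← lintegral_indicator (hKm.inter slab_meas)]
  set g : E n → ℝ≥0∞ := (K ∩ Slab K e).indicator (fun x => ‖Ω1 (inner ℝ e x)‖ₑ) with hg
  have hgm : Measurable g :=
    ((hm.comp (by fun_prop)).enorm).indicator (hKm.inter slab_meas)
  rw [shear he0 hgm]
  have hline : ∀ x : E n, psi e x * ∫⁻ r : ℝ, g (x + r • e) ≤
      (closedBall (0 : E n) (R + 1)).indicator (fun _ => C) x := by
    intro x
    by_cases hpsi : (inner ℝ e x : ℝ) / ‖e‖ ^ 2 ∈ Ico (0 : ℝ) 1
    swap
    · unfold psi
      rw [indicator_of_notMem hpsi, zero_mul]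
      exact bot_le
    have hpsi1 : psi e x = 1 := by
      unfold psi
      rw [indicator_of_mem hpsi]
    rw [hpsi1, one_mul]
    rw [hP.ef.p1, one_pow, div_one] at hpsi
    by_cases hx : x ∈ closedBall (0 : E n) (R + 1)
    · rw [indicator_of_mem hx, hC]
      have h1 : ∀ r : ℝ, g (x + r • e) ≤ ‖Ω1 (inner ℝ e x + r)‖ₑ := by
        intro r
        rw [hg]
        refine (indicator_le_self _ _ _).trans ?_
        rw [inner_add_right, inner_smul_right, hee, mul_one]
      calc ∫⁻ r : ℝ, g (x + r • e) ≤ ∫⁻ r : ℝ, ‖Ω1 (inner ℝ e x + r)‖ₑ := lintegral_mono h1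
        _ = ∫⁻ r : ℝ, ‖Ω1 r‖ₑ := lintegral_add_left_eq_self (fun r => ‖Ω1 r‖ₑ) _
        _ = C := by
          rw [hC, ← lintegral_indicator measurableSet_Ioo]
          congr 1
          funext y
          rw [hΩ1]
          by_cases hy : y ∈ Ioo (-supp K (-e)) (supp K e)
          · rw [indicator_of_mem hy, indicator_of_mem hy]
          · rw [indicator_of_notMem hy, indicator_of_notMem hy, enorm_zero]
        _ ≤ _ := le_refl _
    · rw [indicator_of_notMem hx]
      have h1 : ∀ r : ℝ, g (x + r • e) = 0 := by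
        intro r
        rw [hg, indicator_of_notMem]
        rintro ⟨h2, -⟩
        apply hx
        have h3 := hR h2
        rw [mem_closedBall_zero_iff] at h3 ⊢
        have h4 : x - (inner ℝ e x : ℝ) • e = (x + r • e) - (inner ℝ e (x + r • e) : ℝ) • e := by
          rw [inner_add_right, inner_smul_right, hee]
          module
        have h5 : ‖(x + r • e) - (inner ℝ e (x + r • e) : ℝ) • e‖ ^ 2 =
            ‖x + r • e‖ ^ 2 - (inner ℝ e (x + r • e) : ℝ) ^ 2 := by
          generalize x + r • e = v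
          rw [← real_inner_self_eq_norm_sq, inner_sub_left, inner_sub_right, inner_sub_right,
            inner_smul_left, inner_smul_right, inner_smul_right, inner_smul_left, hee,
            real_inner_self_eq_norm_sq, real_inner_comm e v]
          simp only [conj_trivial]
          ring
        have h6 : ‖x - (inner ℝ e x : ℝ) • e‖ ≤ ‖x + r • e‖ := by
          apply (sq_le_sq₀ (norm_nonneg _) (norm_nonneg _)).1
          rw [h4, h5]
          linarith [sq_nonneg (inner ℝ e (x + r • e) : ℝ)]
        calc ‖x‖ = ‖(x - (inner ℝ e x : ℝ) • e) + (inner ℝ e x : ℝ) • e‖ := by congr 1; module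
          _ ≤ ‖x - (inner ℝ e x : ℝ) • e‖ + ‖(inner ℝ e x : ℝ) • e‖ := norm_add_le _ _
          _ ≤ R + 1 := by
            apply add_le_add (h6.trans h3)
            rw [norm_smul, hP.ef.p1, mul_one, Real.norm_eq_abs, abs_of_nonneg hpsi.1]
            exact hpsi.2.le
      simp_rw [h1]
      simp
  refine (lintegral_mono hline).trans_lt ?_
  rw [lintegral_indicator isClosed_closedBall.measurableSet, setLIntegral_const]
  exact ENNReal.mul_lt_top hC' measure_closedBall_lt_top

theorem rid : S_rid := by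
  intro n K δ lam X t e f hn hD hR hP Ω hΩ κ
  have hcb := hD.cs.cb
  have hK := hcb.comp
  have hKm := hK.measurableSet
  have hee : inner ℝ e e = (1 : ℝ) := hP.ef.pp
  have hef : inner ℝ e f = (0 : ℝ) := hP.ef.pq
  have hfe : inner ℝ f e = (0 : ℝ) := hP.ef.qp
  have hff : inner ℝ f f = (1 : ℝ) := hP.ef.qq
  have he0 : e ≠ 0 := hP.ef.p0
  set u : E n := κ • e + f with hu
  have hu0 : u ≠ 0 := by
    intro h
    have h1 : inner ℝ f u = (1 : ℝ) := by
      rw [hu, inner_add_right, inner_smul_right, hfe, hff]; ring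
    rw [h, inner_zero_right] at h1
    exact zero_ne_one h1
  set τ := t u with hτ
  set C : Set (E n) := cap K u τ ∩ Slab K e with hC
  have hcapm : MeasurableSet (cap K u τ) := Pool.Agent.Helper51.HV.cap_meas hK u τ
  have hCm : MeasurableSet C := hcapm.inter slab_meas
  -- the cap and its part in the slab agree almost everywhere
  have hae : (cap K u τ : Set (E n)) =ᵐ[volume] C := by
    have h1 : ∀ᵐ x : E n, inner ℝ e x ≠ supp K e := by
      have := Pool.Agent.Helper51.HV.hyper_null he0 (supp K e)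
      rw [ae_iff]
      simpa using this
    have h2 : ∀ᵐ x : E n, inner ℝ e x ≠ -supp K (-e) := by
      have := Pool.Agent.Helper51.HV.hyper_null he0 (-supp K (-e))
      rw [ae_iff]
      simpa using this
    filter_upwards [h1, h2] with x h1 h2
    apply propext
    constructor
    · intro hx
      refine ⟨hx, ?_⟩
      have h3 : x ∈ K := hx.1
      rcases mem_slab hP h3 with h | h | h
      · exact h
      · exact absurd h h1
      · exact absurd h h2
    · intro hx
      exact hx.1
  have hOmK := Om_int3 hP hK hΩ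
  have hCsub : C ⊆ K ∩ Slab K e := fun x hx => ⟨hx.1.1, hx.2⟩
  have hOmC : IntegrableOn (fun x => Ω (inner ℝ e x)) C := hOmK.mono_set hCsub
  have hfC : IntegrableOn (fun x => (inner ℝ f x : ℝ)) C :=
    (Pool.Agent.Helper51.HV.int_on hK (f := fun x => (inner ℝ f x : ℝ)) (by fun_prop)).mono_set
      (hCsub.trans inter_subset_left)
  have hsum : IntegrableOn (fun x => Ω (inner ℝ e x) + 2 * κ * inner ℝ f x) C :=
    hOmC.add (hfC.const_mul _)
  -- the integral of the derivative vanishes
  have hzero : ∫ x in C, (Ω (inner ℝ e x) + 2 * κ * inner ℝ f x) = 0 := by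
    set Ω1 := (Ioo (-supp K (-e)) (supp K e)).indicator Ω with hΩ1
    have hm := Om_meas hP hΩ
    rw [← integral_indicator hCm]
    have hgeq : C.indicator (fun x => Ω (inner ℝ e x) + 2 * κ * inner ℝ f x) =
        C.indicator (fun x => Ω1 (inner ℝ e x) + 2 * κ * inner ℝ f x) := by
      apply indicator_congr
      intro x hx
      simp only
      rw [hΩ1, indicator_of_mem]
      exact hx.2
    have hw0 : e - κ • f ≠ 0 := by
      intro h
      have h1 : inner ℝ e (e - κ • f) = (1 : ℝ) := by
        rw [inner_sub_right, inner_smul_right, hee, hef]; ring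
      rw [h, inner_zero_right] at h1
      exact zero_ne_one h1
    apply shear_zero hw0
    · rw [hgeq]
      exact ((hm.comp (by fun_prop)).add (by fun_prop)).indicator hCm
    · rwa [integrable_indicator_iff hCm]
    intro x
    have hie : ∀ r : ℝ, inner ℝ e (x + r • (e - κ • f)) = inner ℝ e x + r := by
      intro r
      rw [inner_add_right, inner_smul_right, inner_sub_right, inner_smul_right, hee, hef]; ring
    have hif : ∀ r : ℝ, inner ℝ f (x + r • (e - κ • f)) = inner ℝ f x - κ * r := by
      intro r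
      rw [inner_add_right, inner_smul_right, inner_sub_right, inner_smul_right, hfe, hff]; ring
    have hiu : ∀ r : ℝ, inner ℝ u (x + r • (e - κ • f)) = inner ℝ u x := by
      intro r
      rw [hu, inner_add_left, inner_add_left, inner_smul_left, inner_smul_left, hie, hif]
      simp only [conj_trivial]
      ring
    have hnn : ∀ r : ℝ, ‖x + r • (e - κ • f)‖ ^ 2 = ‖x‖ ^ 2 +
        2 * r * (inner ℝ e x - κ * inner ℝ f x) + r ^ 2 * (1 + κ ^ 2) := by
      intro r
      rw [norm_add_sq_real, inner_smul_right, inner_sub_right, inner_smul_right, norm_smul,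
        mul_pow, ← real_inner_self_eq_norm_sq (e - κ • f), inner_sub_left, inner_sub_right,
        inner_sub_right, inner_smul_left, inner_smul_left, inner_smul_right, inner_smul_right,
        hee, hef, hfe, hff, real_inner_comm e x, real_inner_comm f x, Real.norm_eq_abs, sq_abs]
      simp only [conj_trivial]
      ring
    by_cases hc : τ ≤ inner ℝ u x
    swap
    · have h0 : ∀ r : ℝ, C.indicator (fun x => Ω (inner ℝ e x) + 2 * κ * inner ℝ f x)
          (x + r • (e - κ • f)) = 0 := by
        intro r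
        apply indicator_of_notMem
        rintro ⟨⟨-, h1⟩, -⟩
        apply hc
        have h2 : τ ≤ inner ℝ u (x + r • (e - κ • f)) := h1
        rwa [hiu] at h2
      simp_rw [h0]
      simp
    set z0 : ℝ := inner ℝ e x with hz0
    set f0 : ℝ := inner ℝ f x with hf0
    set φ : ℝ → ℝ := fun r => WW K X e f (z0 + r) -
      (‖x‖ ^ 2 + 2 * r * (z0 - κ * f0) + r ^ 2 * (1 + κ ^ 2) - (z0 + r) ^ 2) with hφ
    set A : ℝ := -supp K (-e) - z0 with hA
    set B : ℝ := supp K e - z0 with hB
    set I : Set ℝ := {r | r ∈ Ioo A B ∧ 0 ≤ φ r} with hI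
    have hslab : ∀ r : ℝ, r ∈ Ioo A B ↔ z0 + r ∈ Ioo (-supp K (-e)) (supp K e) := by
      intro r
      rw [hA, hB, mem_Ioo, mem_Ioo, sub_lt_iff_lt_add', lt_sub_iff_add_lt']
    have hmemI : ∀ r : ℝ, x + r • (e - κ • f) ∈ C ↔ r ∈ I := by
      intro r
      have h1 : x + r • (e - κ • f) ∈ Slab K e ↔ r ∈ Ioo A B := by
        rw [hslab]
        show (inner ℝ e (x + r • (e - κ • f)) : ℝ) ∈ Ioo (-supp K (-e)) (supp K e) ↔ _
        rw [hie]
      constructor
      · rintro ⟨⟨h2, -⟩, h3⟩
        refine ⟨h1.1 h3, ?_⟩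
        rw [mem_iff hP h3, hnn, hie] at h2
        simp only [hφ]
        linarith
      · rintro ⟨h2, h3⟩
        have h4 := h1.2 h2
        refine ⟨⟨?_, ?_⟩, h4⟩
        · rw [mem_iff hP h4, hnn, hie]
          simp only [hφ] at h3
          linarith
        · show τ ≤ inner ℝ u (x + r • (e - κ • f))
          rw [hiu]
          exact hc
    have hgI : ∀ r : ℝ, C.indicator (fun x => Ω (inner ℝ e x) + 2 * κ * inner ℝ f x)
        (x + r • (e - κ • f)) = I.indicator (fun r => Ω (z0 + r) + 2 * κ * (f0 - κ * r)) r := by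
      intro r
      by_cases hr : r ∈ I
      · rw [indicator_of_mem hr, indicator_of_mem ((hmemI r).2 hr), hie, hif]
      · rw [indicator_of_notMem hr, indicator_of_notMem (fun h => hr ((hmemI r).1 h))]
    simp_rw [hgI]
    have hφc : Continuous φ := by
      have := WW_cont hP hK.isClosed
      fun_prop
    have hIm : MeasurableSet I :=
      measurableSet_Ioo.inter (measurableSet_le measurable_const hφc.measurable)
    have hOm1 : IntegrableOn (fun r => Ω (z0 + r)) (Ioo A B) := by
      have h1 := (measurePreserving_add_left (volume : Measure ℝ) z0).integrableOn_comp_preimage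
        (measurableEmbedding_addLeft z0) (f := Ω) (s := Ioo (-supp K (-e)) (supp K e))
      have h2 : (fun x => z0 + x) ⁻¹' Ioo (-supp K (-e)) (supp K e) = Ioo A B := by
        ext r
        exact (hslab r).symm
      rw [h2] at h1
      exact h1.2 (Om_int hP hK.isClosed hΩ)
    have hder : IntegrableOn (fun r => Ω (z0 + r) + 2 * κ * (f0 - κ * r)) (Ioo A B) := by
      apply hOm1.add
      have : ContinuousOn (fun r : ℝ => 2 * κ * (f0 - κ * r)) (Icc A B) := by fun_prop
      exact (this.integrableOn_compact isCompact_Icc).mono_set Ioo_subset_Icc_self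
    have hIsub : I ⊆ Ioo A B := fun r hr => hr.1
    refine ⟨(integrable_indicator_iff hIm).2 (hder.mono_set hIsub), ?_⟩
    rw [integral_indicator hIm]
    have hqn : ∀ r : ℝ, 0 ≤ ‖x‖ ^ 2 + 2 * r * (z0 - κ * f0) + r ^ 2 * (1 + κ ^ 2) -
        (z0 + r) ^ 2 := by
      intro r
      rw [← hnn, ← hie r, sub_nonneg]
      have := abs_real_inner_le_norm e (x + r • (e - κ • f))
      rw [hP.ef.p1, one_mul] at this
      rw [← sq_abs (inner ℝ e (x + r • (e - κ • f)) : ℝ)]
      exact pow_le_pow_left₀ (abs_nonneg _) this 2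
    apply int_pos_part hφc _ _ _ hder
    · -- the set is an interval
      apply Convex.ordConnected (𝕜 := ℝ)
      intro r1 h1 r2 h2 a b ha hb hab
      rw [← hI, ← hmemI] at h1 h2 ⊢
      have hCconv : Convex ℝ (K ∩ Slab K e) := by
        apply hcb.conv.inter
        have : Slab K e = (fun x => (inner ℝ e x : ℝ)) ⁻¹' Ioo (-supp K (-e)) (supp K e) := rfl
        rw [this]
        exact (convex_Ioo _ _).is_linear_preimage (innerSL ℝ e).toLinearMap.isLinear
      have h3 := hCconv (hCsub h1) (hCsub h2) ha hb hab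
      have h4 : a • (x + r1 • (e - κ • f)) + b • (x + r2 • (e - κ • f)) =
          x + (a • r1 + b • r2) • (e - κ • f) := by
        obtain rfl : b = 1 - a := by linarith
        simp only [smul_eq_mul]
        module
      rw [h4] at h3
      exact ⟨⟨h3.1, by
        show τ ≤ inner ℝ u (x + (a • r1 + b • r2) • (e - κ • f))
        rw [hiu]
        exact hc⟩, h3.2⟩
    · intro r hr
      have h1 : HasDerivAt (fun r => WW K X e f (z0 + r)) (Ω (z0 + r)) r := by
        have := (WW_deriv hP hΩ ((hslab r).1 hr)).comp_const_add z0 r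
        exact this
      have h2 : HasDerivAt (fun r : ℝ => ‖x‖ ^ 2 + 2 * r * (z0 - κ * f0) + r ^ 2 * (1 + κ ^ 2) -
          (z0 + r) ^ 2) (-(2 * κ * (f0 - κ * r))) r := by
        have h3 : HasDerivAt (fun r : ℝ => r) 1 r := hasDerivAt_id r
        have h4 := ((((h3.const_mul 2).mul_const (z0 - κ * f0)).const_add (‖x‖ ^ 2)).add
          ((h3.pow 2).mul_const (1 + κ ^ 2))).sub ((h3.const_add z0).pow 2)
        refine h4.congr_deriv ?_
        simp only [Nat.cast_ofNat, Nat.add_one_sub_one, pow_one, mul_one]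
        ring
      have h5 := h1.sub h2
      refine h5.congr_deriv ?_
      ring
    · simp only [hφ]
      rw [WW_out]
      · have := hqn A
        linarith
      · rw [hA]
        intro h
        have := h.1
        linarith
    · simp only [hφ]
      rw [WW_out]
      · have := hqn B
        linarith
      · rw [hB]
        intro h
        have := h.2
        linarith
  constructor
  · exact hOmC.congr_set_ae hae
  · rw [setIntegral_congr_set hae]
    have h1 : ∫ x in C, Ω (inner ℝ e x) + 2 * κ * inner ℝ f x =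
        (∫ x in C, Ω (inner ℝ e x)) + 2 * κ * ∫ x in C, (inner ℝ f x : ℝ) := by
      rw [integral_add hOmC (hfC.const_mul _), integral_const_mul]
    rw [hzero] at h1
    have h2 : ∫ x in C, (inner ℝ f x : ℝ) = lam * ss X e f κ := by
      rw [← setIntegral_congr_set hae, integral_inner ((Pool.Agent.Helper51.HV.int_on hK
        (f := fun x : E n => x) (by fun_prop)).mono_set
        (Pool.Agent.Helper51.HV.cap_subset u τ)), hD.mom u hu0, inner_smul_right]
      rfl
    rw [h2] at h1
    rw [hΩ]
    linarith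

end Pool.Agent.Helper61.SY
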